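import Pool.Agent.H775R2.RR.Exclude

set_option autoImplicit false

open Polynomial

namespace Pool.Agent.Results.MP_3f3e0f_an.PowerNecessary

/-- Real-rooted: every complex zero is real. Nonzero constants and the zero polynomial count as
real-rooted. -/
def RealRooted (p : ℝ[X]) : Prop := p = 0 ∨ ∀ z : ℂ, aeval z p = 0 → z.im = 0

/-- The class `𝒫⁺`: real-rooted polynomials all of whose coefficients `a₀, …, aₙ` (`n` the degree)
are strictly positive. -/
def PPlus (p : ℝ[X]) : Prop := (∀ k ≤ p.natDegree, 0 < p.coeff k) ∧ RealRooted p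

/-- `F[p] = ∑ F(a_k) x^k`. -/
noncomputable def applyCoeff (F : ℝ → ℝ) (p : ℝ[X]) : ℝ[X] :=
  ∑ k ∈ Finset.range (p.natDegree + 1), C (F (p.coeff k)) * X ^ k

/-- If `F : [0,∞) → [0,∞)`, `F 0 = 0`, maps every polynomial of `𝒫⁺` coefficientwise to a
real-rooted polynomial, then `F = 0` or `F t = c t ^ α` with `c > 0` and `α = 1` or `α ≥ 2`. -/
theorem result (F : ℝ → ℝ) (hF : ∀ t, 0 ≤ t → 0 ≤ F t) (h0 : F 0 = 0)
    (hpres : ∀ p : ℝ[X], PPlus p → RealRooted (applyCoeff F p)) :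
    (∀ t, 0 ≤ t → F t = 0) ∨
      ∃ c α : ℝ, 0 < c ∧ (α = 1 ∨ 2 ≤ α) ∧ ∀ t, 0 ≤ t → F t = c * t ^ α :=
  H775R2.RR.classification hF h0 (fun p hp hr => hpres p ⟨hp, hr⟩)

end Pool.Agent.Results.MP_3f3e0f_an.PowerNecessary
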